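import Mathlib
import Pool.Agent.H.MP_3ff21c_al.B

namespace Pool.Agent.Results.MP_3ff21c_al.Yes

open Pool.Agent.H.MP_3ff21c_al

theorem result {H G Y : Type} [Group H] [Group G] [Primcodable Y]
    (F : Subgroup H) [F.FiniteIndex] [IsFreeGroup F]
    {n : ℕ} (a : Fin n → H) (ha : Subgroup.closure (Set.range a) = ⊤)
    (M : Submonoid H) (hM : M.FG)
    (κ : Y → G) (hG : ComputablePred fun w : List (Y × Bool) => ev κ w = 1) :
    ∃ f : List (List (Fin n × Bool) × List (Y × Bool)) →. Bool, Partrec f ∧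
      ∀ I, Submonoid.closure {h | ∃ y, y ∈ I ∧ ev a y.1 = h} = M → ∃ b ∈ f I,
        (b = true ↔ ∃ Φ : M →* G, ∀ y ∈ I, ∀ h : ev a y.1 ∈ M, Φ ⟨ev a y.1, h⟩ = ev κ y.2) := by
  classical
  have : Group.FG H := Group.fg_iff.2 ⟨_, ha, Set.finite_range a⟩
  obtain ⟨T, hT⟩ := hM
  obtain ⟨k, s, hs⟩ : ∃ (k : ℕ) (s : Fin k → H), M = Submonoid.closure (Set.range s) :=
    ⟨T.card, fun i => T.equivFin.symm i, by
      rw [← hT]; congr 1; ext x
      exact ⟨fun h => ⟨T.equivFin ⟨x, h⟩, by simp⟩,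
        by rintro ⟨i, rfl⟩; exact (T.equivFin.symm i).2⟩⟩
  have : ∀ h : H, ∃ w, ev a w = h := fun h => by
    obtain ⟨g, rfl⟩ : h ∈ (FreeGroup.lift a).range := by
      rw [FreeGroup.range_lift_eq_closure, ha]; trivial
    exact ⟨g.toWord, by rw [ev, FreeGroup.mk_toWord]⟩
  choose σ hσ using fun i => this (s i)
  obtain ⟨R, hR⟩ := fp (G := G) F s M hs
  obtain ⟨wp', hw, e⟩ := ComputablePred.computable_iff.1 hG
  have e : ∀ w, wp' w = true ↔ ev κ w = 1 := fun w => (congrFun e w).symm.to_iff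
  let P := List (Fin n × Bool) × List (Y × Bool)
  let C := (Fin k → List P) × List (P × List (Fin k))
  let ψ : C → Fin k → List (Y × Bool) := fun c i => (c.1 i).flatMap Prod.snd
  let Tw : C → List (List (Y × Bool)) := fun c => R.map (sb (ψ c)) ++
    c.2.map fun z => FreeGroup.invRev z.1.2 ++ z.2.flatMap (ψ c)
  have pi : Primrec (FreeGroup.invRev : List (Y × Bool) → _) :=
    Primrec.list_reverse.comp (Primrec.list_map .id (((Primrec.fst.comp .snd).pair
      (Primrec.not.comp (Primrec.snd.comp .snd)))).to₂)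
  have pψ : Primrec₂ ψ := Primrec.list_flatMap (Primrec.fin_app.comp (Primrec.fst.comp .fst) .snd)
    (Primrec.snd.comp .snd).to₂
  have pT : Primrec Tw := by
    refine Primrec.list_append.comp (Primrec.list_map (.const R) ?_) (Primrec.list_map .snd ?_)
    · have := pψ.comp (Primrec.fst.comp (Primrec.fst (α := C × List (Fin k × Bool))
        (β := Fin k × Bool))) (Primrec.fst.comp .snd)
      exact Primrec.list_flatMap .snd (Primrec.cond (Primrec.snd.comp .snd) this (pi.comp this)).to₂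
    · exact (Primrec.list_append.comp (pi.comp (Primrec.snd.comp (Primrec.fst.comp .snd)))
        (Primrec.list_flatMap (Primrec.snd.comp .snd)
          (pψ.comp (Primrec.fst.comp .fst) .snd).to₂)).to₂
  have pm : PrimrecRel fun (I : List P) (y : P) => y ∈ I :=
    (PrimrecRel.exists_mem_list (R := fun x y : P => x = y) Primrec.eq).of_eq fun _ _ => by simp
  obtain ⟨f, hf, h⟩ := search (α := List P) (C := C) (p := fun I c =>
    (∀ i ∈ List.finRange k, (∀ y ∈ c.1 i, y ∈ I) ∧ ev a ((c.1 i).flatMap Prod.fst) = ev a (σ i)) ∧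
    (∀ y ∈ I, ∃ z ∈ c.2, z.1 = y) ∧ ∀ z ∈ c.2, z.1 ∈ I ∧ ev a z.1.1 = ev a (z.2.flatMap σ)) (by
      have p1 : Primrec fun t : Fin k × List P × C => t.2.2.1 t.1 :=
        Primrec.fin_app.comp (Primrec.fst.comp (Primrec.snd.comp .snd)) .fst
      refine PrimrecPred.and ?_ (PrimrecPred.and ?_ ?_)
      · refine (PrimrecRel.forall_mem_list (R := fun i (t : List P × C) => (∀ y ∈ t.2.1 i, y ∈ t.1) ∧
          ev a ((t.2.1 i).flatMap Prod.fst) = ev a (σ i)) (PrimrecPred.and ?_ ?_)).comp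
          (.const _) .id
        · exact (PrimrecRel.forall_mem_list (R := fun (y : P) (I : List P) => y ∈ I)
            (pm.comp .snd .fst)).comp p1 (Primrec.fst.comp .snd)
        · exact (wp F a).comp (Primrec.list_flatMap p1 (Primrec.fst.comp .snd).to₂)
            ((Primrec.dom_finite σ).comp .fst)
      · exact (PrimrecRel.forall_mem_list (R := fun (y : P) (d : List (P × List (Fin k))) =>
          ∃ z ∈ d, z.1 = y) ((PrimrecRel.exists_mem_list (R := fun (z : P × List (Fin k)) (y : P) =>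
            z.1 = y) (Primrec.eq.comp (Primrec.fst.comp .fst) .snd)).comp .snd .fst)).comp
          .fst (Primrec.snd.comp .snd)
      · exact (PrimrecRel.forall_mem_list (R := fun (z : P × List (Fin k)) (I : List P) =>
          z.1 ∈ I ∧ ev a z.1.1 = ev a (z.2.flatMap σ)) (PrimrecPred.and
            (pm.comp .snd (Primrec.fst.comp .fst)) ((wp F a).comp
              (Primrec.fst.comp (Primrec.fst.comp .fst)) (Primrec.list_flatMap
                (Primrec.snd.comp .fst) ((Primrec.dom_finite σ).comp .snd).to₂)))).comp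
          (Primrec.snd.comp .snd) .fst)
    (o := fun _ c => (Tw c).all wp') ((call hw).comp (pT.to_comp.comp .snd)).to₂
  refine ⟨f, hf, fun I hI => ?_⟩
  have hm : ∀ y ∈ I, ev a y.1 ∈ M := fun y hy => hI ▸ Submonoid.subset_closure ⟨y, hy, rfl⟩
  obtain ⟨c, ⟨c1, c2, c3⟩, hc⟩ := h I (by
    choose l l1 l2 using fun i => ex_list (fun y : P => ev a y.1) (· ∈ I) (h := s i)
      (by rw [hI, hs]; exact Submonoid.subset_closure ⟨i, rfl⟩)
    choose! d _ d2 using fun (y : P) (hy : y ∈ I) => ex_list s (fun _ => True) (h := ev a y.1)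
      (by simpa [hs, Set.range] using hm y hy)
    refine ⟨(l, I.map fun y => (y, d y)), fun i _ => ⟨l1 i, by rw [ev_flat, l2, hσ]⟩,
      fun y hy => ⟨_, List.mem_map_of_mem hy, rfl⟩, fun z hz => ?_⟩
    obtain ⟨y, hy, rfl⟩ := List.mem_map.1 hz
    exact ⟨hy, by simp only [ev_flat, hσ]; exact (d2 y hy).symm⟩)
  refine ⟨_, hc, ?_⟩
  have key : ∀ Φ : M →* G, (∀ i, ∃ h, Φ ⟨s i, h⟩ = ev κ (ψ c i)) → ∀ z ∈ c.2, ∀ h,
      Φ ⟨ev a z.1.1, h⟩ = ev κ (z.2.flatMap (ψ c)) := fun Φ hΦ z hz h => by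
    obtain ⟨b, hb⟩ := rel_prod Φ s (fun i => ev κ (ψ c i)) z.2 (fun i _ => hΦ i)
    rw [ev_flat, ← hb]
    congr 2
    simp only [(c3 z hz).2, ev_flat, hσ]
  simp only [List.all_eq_true, e, Tw, List.forall_mem_append, List.forall_mem_map, ev_sb, hR,
    ev_app, ev_inv, inv_mul_eq_one]
  constructor
  · rintro ⟨⟨Φ, hΦ⟩, h2⟩
    refine ⟨Φ, fun y hy h => ?_⟩
    obtain ⟨z, hz, rfl⟩ := c2 y hy
    rw [key Φ hΦ z hz, h2 z hz]
  · rintro ⟨Φ, hΦ⟩
    have : ∀ i, ∃ h, Φ ⟨s i, h⟩ = ev κ (ψ c i) := fun i => by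
      obtain ⟨k1, k2⟩ := c1 i (List.mem_finRange i)
      obtain ⟨b, hb⟩ := rel_prod Φ (fun y : P => ev a y.1) (fun y => ev κ y.2) (c.1 i)
        (fun y hy => ⟨hm y (k1 y hy), hΦ y (k1 y hy) _⟩)
      rw [hσ, ev_flat] at k2
      refine ⟨k2 ▸ b, ?_⟩
      rw [ev_flat, ← hb]
      congr 2
      exact k2.symm
    exact ⟨⟨Φ, this⟩, fun z hz => by
      rw [← key Φ this z hz (hm _ (c3 z hz).1), hΦ _ (c3 z hz).1]⟩

end Pool.Agent.Results.MP_3ff21c_al.Yes
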